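import Pool.Agent.H56.RT3

open Set Pool.Agent.H56.RT
open scoped NNReal

namespace Pool.Agent.Results.MP_13bb8c_an.NotCompact

lemma pt_cont : Continuous fun p : Ca × ℝ≥0 => pt p.1 (p.2 : ℝ) := by
  refine (LipschitzWith.of_dist_le_mul (K := 3) fun a b => ?_).continuous
  rw [dist_pt _ _ a.2.coe_nonneg b.2.coe_nonneg, Prod.dist_eq, NNReal.dist_eq, Pool.Agent.H56.RT.mt]
  have h1 := le_max_left (dist a.1 b.1) |(a.2 : ℝ) - b.2|
  have h2 := le_max_right (dist a.1 b.1) |(a.2 : ℝ) - b.2|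
  have h3 := le_abs_self ((a.2 : ℝ) - b.2)
  have h4 := neg_abs_le ((a.2 : ℝ) - b.2)
  have h5 : (0:ℝ) ≤ a.2 := a.2.2
  have h6 : (0:ℝ) ≤ b.2 := b.2.2
  have h7 : 0 ≤ dist a.1 b.1 := dist_nonneg
  push_cast
  rcases max_cases (max (a.2 : ℝ) b.2) (dist a.1 b.1) with h | h
  · rw [h.1]
    rcases max_cases (a.2 : ℝ) b.2 with h' | h' <;> rw [h'.1] <;> linarith
  · rw [h.1]; linarith

lemma proper : ProperSpace (Tr Ca) := by
  refine ⟨fun c r => ?_⟩
  obtain ⟨y, t, ht, rfl⟩ := exists_pt c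
  refine ((isCompact_univ.prod (isCompact_Icc (a := 0) (b := (t + r).toNNReal))).image
    pt_cont).of_isClosed_subset Metric.isClosed_closedBall fun z hz => ?_
  obtain ⟨x, s, hs, rfl⟩ := exists_pt z
  rw [Metric.mem_closedBall, dist_pt _ _ hs ht] at hz
  have := le_mt1 x s y t
  refine ⟨(x, ⟨s, hs⟩), ⟨trivial, zero_le, ?_⟩, rfl⟩
  exact NNReal.coe_le_coe.1 ((show s ≤ t + r by linarith).trans (Real.le_coe_toNNReal _))

theorem result : ∃ (T : Type) (_ : MetricSpace T) (o : T), IsRTree T ∧ ProperSpace T ∧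
    ∃ W : Set (Free o), W.Nonempty ∧ Bornology.IsBounded W ∧ CondA o W ∧ UnifReg o W ∧
      ¬ RelWeakCompact o W :=
  ⟨Tr Ca, inferInstance, root, isRTree, proper, range gam, range_nonempty _,
    isBounded_iff_forall_norm_le.2 ⟨2, by rintro _ ⟨n, rfl⟩; exact gam_norm n⟩,
    gam_condA, gam_reg, gam_not⟩

end Pool.Agent.Results.MP_13bb8c_an.NotCompact
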